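import Mathlib
import Pool.Agent.K7.H87.EX.Stm2
import Pool.Agent.K7.H87.EX.Main

/-!
# Job DROP of project EX2 (MP_611b97_al)
-/

set_option autoImplicit false

namespace Pool.Agent.K7.H10.EXDROP

open Pool.Agent.K7.H87.EX

theorem cj_mul {K : Type} [Group K] (N : Subgroup K) (hN : N.Normal) (g : K) (a b : N) :
    cj N hN g (a * b) = cj N hN g a * cj N hN g b := by
  apply Subtype.ext
  simp [cj, mul_assoc]

theorem cj_comp {K : Type} [Group K] (N : Subgroup K) (hN : N.Normal) (g h : K) (a : N) :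
    cj N hN (g * h) a = cj N hN g (cj N hN h a) := by
  apply Subtype.ext
  simp [cj, mul_assoc]

theorem cj_one {K : Type} [Group K] (N : Subgroup K) (hN : N.Normal) (a : N) :
    cj N hN 1 a = a := by
  apply Subtype.ext
  simp [cj]

theorem t (hHol : StHol) (hUni : StUni) (hLev : StLev) (hInv : StInv) : StDrop := by
  intro K _ N hN _ hl hr hcj hfin g hg a ha
  obtain ⟨c, hca, hc1⟩ : ∃ c : N, (c = a ∨ c = a⁻¹) ∧ 1 < c := by
    rcases lt_or_gt_of_ne ha with h | h
    · refine ⟨a⁻¹, Or.inr rfl, ?_⟩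
      have h1 := inv_le hl hr _ _ h.le
      rw [inv_one] at h1
      exact lt_of_le_of_ne h1 (fun h2 => ha (inv_eq_one.1 h2.symm))
    · exact ⟨a, Or.inl rfl, h⟩
  obtain ⟨φ, hφc, hadd, hmon⟩ := hHol N hl hr c hc1
  have hci : c⁻¹ ≤ 1 := by simpa using inv_le hl hr _ _ hc1.le
  have hBc : Bd c c := ⟨1, by simpa using hci.trans hc1.le, by simp⟩
  have hBa : Bd c a := by
    rcases hca with h | h
    · rw [← h]; exact hBc
    · have : a = c⁻¹ := by rw [h, inv_inv]
      rw [this]; exact bd_inv hl hr c c hBc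
  have hφ1 := phi_one hl hr c φ hadd
  have hφa : φ a ≠ 0 := by
    rcases hca with h | h
    · rw [← h, hφc]; exact one_ne_zero
    · have : a = c⁻¹ := by rw [h, inv_inv]
      rw [this, phi_inv hl hr c φ hadd c hBc, hφc]
      norm_num
  -- the convex hull of `c`
  let H : Subgroup N :=
    { carrier := {b | Bd c b}
      one_mem' := bd_one hl hr c
      mul_mem' := fun {x y} hx hy => bd_mul hl hr c x y hx hy
      inv_mem' := fun {x} hx => bd_inv hl hr c x hx }
  have hH : Conv H := fun x y h1 h2 h3 => bd_of_one_le hl hr c x y hc1.le h1 h2 h3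
  have hBg : ∀ g : K, ∀ b : N, Bd c b → Bd c (cj N hN g b) := fun g b hb =>
    hInv K N hN hl hr hcj hfin g H hH b hb
  have hL : ∀ g : K, ∀ b : N, Bd c b → φ (cj N hN g b) = φ (cj N hN g c) * φ b := by
    intro g b hb
    refine hUni N hl hr c hc1 φ (fun b => φ (cj N hN g b)) hφc hadd hmon ?_ ?_ b hb
    · intro x y hx hy
      simp only [cj_mul]
      exact hadd _ _ (hBg g x hx) (hBg g y hy)
    · intro x y hx hy hxy
      exact hmon _ _ (hBg g x hx) (hBg g y hy) (hcj g x y hxy)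
  let L : K →* ℝ :=
    { toFun := fun g => φ (cj N hN g c)
      map_one' := by
        change φ (cj N hN 1 c) = 1
        rw [cj_one, hφc]
      map_mul' := by
        intro x y
        change φ (cj N hN (x * y) c) = φ (cj N hN x c) * φ (cj N hN y c)
        rw [cj_comp]
        exact hL x _ (hBg y c hBc) }
  have hLg : φ (cj N hN g c) = 1 := by
    have h1 : g ∈ (MonoidHom.toHomUnits L).ker :=
      Abelianization.commutator_subset_ker (MonoidHom.toHomUnits L) hg
    have h2 : MonoidHom.toHomUnits L g = 1 := h1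
    have h3 : ((MonoidHom.toHomUnits L g : ℝˣ) : ℝ) = L g := MonoidHom.coe_toHomUnits L g
    rw [h2] at h3
    exact h3.symm
  -- the kernel of `φ`
  let D : Subgroup N :=
    { carrier := {b | Bd c b ∧ φ b = 0}
      one_mem' := ⟨bd_one hl hr c, hφ1⟩
      mul_mem' := by
        rintro x y ⟨hx1, hx2⟩ ⟨hy1, hy2⟩
        refine ⟨bd_mul hl hr c x y hx1 hy1, ?_⟩
        rw [hadd x y hx1 hy1, hx2, hy2, add_zero]
      inv_mem' := by
        rintro x ⟨hx1, hx2⟩
        refine ⟨bd_inv hl hr c x hx1, ?_⟩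
        rw [phi_inv hl hr c φ hadd x hx1, hx2, neg_zero] }
  have hD : Conv D := by
    rintro x y h1 h2 ⟨h3, h4⟩
    have hx : Bd c x := bd_of_one_le hl hr c x y hc1.le h1 h2 h3
    refine ⟨hx, le_antisymm ?_ ?_⟩
    · rw [← h4]; exact hmon x y hx h3 h2
    · rw [← hφ1]; exact hmon 1 x (bd_one hl hr c) hx h1
  obtain ⟨-, -, -, h4, -⟩ := hLev N hl hr hfin
  refine (h4 _ _).2 ⟨D, hD, ⟨?_, ?_⟩, fun h => hφa h.2⟩
  · exact bd_mul hl hr c _ _ (bd_inv hl hr c a hBa) (hBg g a hBa)
  · rw [hadd _ _ (bd_inv hl hr c a hBa) (hBg g a hBa), phi_inv hl hr c φ hadd a hBa,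
      hL g a hBa, hLg]
    ring

end Pool.Agent.K7.H10.EXDROP
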