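import Pool.Agent.K7.H10.IQ_POS

/-!
# Project IQ (MP_598757_gt), job LIM: the second intrinsic volume of the truncated tetrahedron
-/

set_option autoImplicit false

namespace Pool.Agent.K7.H10.IQ

open Metric Set MeasureTheory Filter Topology Pool.Agent.K7.H39.Cube Pool.Agent.K7.H39.IQ
open scoped Pointwise

theorem add_ball_subset {t : ℝ} :
    B 2 4 + closedBall (0 : E3) t ⊆ B (2 + Real.sqrt 3 * t) (4 + Real.sqrt 3 * t) := by
  rintro _ ⟨x, hx, z, hz, rfl⟩ i
  have hz' : ‖z‖ ≤ t := by simpa using hz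
  have h1 := abs_le.1 ((abs_y_le i z).trans (mul_le_mul_of_nonneg_left hz' (Real.sqrt_nonneg 3)))
  have h2 := hx i
  simp only [y_add]
  constructor <;> linarith [h1.1, h1.2, h2.1, h2.2]

theorem subset_shadow {X Y : Set E3} (h : X ⊆ Y) (q : E3) :
    X ⊆ Y + Sg q (-((0 : ℕ) : ℝ)) ((0 : ℕ) : ℝ) := by
  intro x hx
  refine ⟨x, h hx, 0, ⟨0, ⟨by simp, by simp⟩, by simp⟩, by simp⟩

theorem subset_add_Sg (X : Set E3) (p : E3) : X ⊆ X + Sg p 0 1 := by
  intro x hx
  exact ⟨x, hx, 0, ⟨0, ⟨le_rfl, zero_le_one⟩, zero_smul _ _⟩, add_zero _⟩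

theorem vol_fbox_ge {K : Set E3} (hK : IsCompact K) (hKc : Convex ℝ K) (p q r : E3) :
    vol K + G K p + G K q + G K r ≤ vol (K + fbox p q r) := by
  have e : K + fbox p q r = K + Sg p 0 1 + Sg q 0 1 + Sg r 0 1 := by
    unfold fbox; rw [← add_assoc, ← add_assoc]
  have c1 := hK.add (Sg_compact p 0 1)
  have c2 := c1.add (Sg_compact q 0 1)
  have v1 := hKc.add (Sg_convex p 0 1)
  have v2 := v1.add (Sg_convex q 0 1)
  have h1 : G K q ≤ G (K + Sg p 0 1) q :=
    G_mono hK hKc c1 v1 q 0 (subset_shadow (subset_add_Sg K p) q)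
  have h2 : G K r ≤ G (K + Sg p 0 1 + Sg q 0 1) r :=
    G_mono hK hKc c2 v2 r 0
      (subset_shadow ((subset_add_Sg K p).trans (subset_add_Sg _ q)) r)
  rw [e]
  unfold G at *
  linarith

theorem y_single (i : Fin 4) (j : Fin 3) : |y i (EuclideanSpace.single j (1 : ℝ))| = 1 := by
  fin_cases i <;> fin_cases j <;> simp [y]

theorem norm_sum_three (c s0 s1 s2 : ℝ) (h0 : |s0| ≤ c) (h1 : |s1| ≤ c) (h2 : |s2| ≤ c) :
    ‖s0 • EuclideanSpace.single (0 : Fin 3) (1 : ℝ) + s1 • EuclideanSpace.single (1 : Fin 3) (1 : ℝ) +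
      s2 • EuclideanSpace.single (2 : Fin 3) (1 : ℝ)‖ ≤ Real.sqrt 3 * c := by
  have hc : 0 ≤ c := (abs_nonneg _).trans h0
  have h3 : (Real.sqrt 3) ^ 2 = 3 := Real.sq_sqrt (by norm_num)
  apply le_of_sq_le_sq _ (by positivity)
  rw [norm_sq3, mul_pow, h3]
  have a0 := sq_le_sq' (by linarith [abs_le.1 h0]) (abs_le.1 h0).2
  have a1 := sq_le_sq' (by linarith [abs_le.1 h1]) (abs_le.1 h1).2
  have a2 := sq_le_sq' (by linarith [abs_le.1 h2]) (abs_le.1 h2).2
  simp
  linarith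

theorem cube_subset {c t : ℝ} (hc : 0 ≤ c) (ht : Real.sqrt 3 * (c / 2) ≤ t) :
    fbox (c • EuclideanSpace.single 0 1) (c • EuclideanSpace.single 1 1)
      (c • EuclideanSpace.single 2 1) + {-((c / 2) • (EuclideanSpace.single 0 1 +
        EuclideanSpace.single 1 1 + EuclideanSpace.single 2 1))} ⊆ closedBall (0 : E3) t := by
  rintro _ ⟨x, hx, z, hz, rfl⟩
  obtain ⟨w, ⟨_, ⟨s0, hs0, rfl⟩, _, ⟨s1, hs1, rfl⟩, rfl⟩, _, ⟨s2, hs2, rfl⟩, rfl⟩ := hx
  rw [mem_singleton_iff] at hz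
  subst hz
  rw [mem_closedBall, dist_zero_right]
  have key : ∀ s : ℝ, s ∈ Icc (0 : ℝ) 1 → |s * c - c / 2| ≤ c / 2 := by
    intro s hs
    rw [abs_le]
    constructor <;> nlinarith [hs.1, hs.2]
  refine le_trans (le_of_eq ?_) ((norm_sum_three (c / 2) (s0 * c - c / 2) (s1 * c - c / 2)
    (s2 * c - c / 2) (key s0 hs0) (key s1 hs1) (key s2 hs2)).trans ht)
  congr 1
  simp only [smul_smul, sub_smul, smul_add]
  abel

theorem vol_eq (hV : S_VOL) {s : ℝ} (hs : 0 ≤ s) :
    vol (B (2 + s) (4 + s)) = 20 + 28 * s + 12 * s ^ 2 + 4 / 3 * s ^ 3 := by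
  rw [hV _ _ (by linarith) (by linarith) (by linarith)]
  ring

/-- job LIM -/
theorem lim (hV : S_VOL) (hC : S_CPT) (hS : S_SHK) : S_LIM := by
  have h3 : (Real.sqrt 3) ^ 2 = 3 := Real.sq_sqrt (by norm_num)
  have h3pos : 0 < Real.sqrt 3 := Real.sqrt_pos.2 (by norm_num)
  obtain ⟨hK, hKc, -⟩ := hC 2 4 (by norm_num) (by norm_num)
  have v0 : vol (B 2 4) = 20 := by
    have := vol_eq hV (le_refl (0 : ℝ))
    simpa using this
  have hup : Tendsto (fun t : ℝ => 14 * Real.sqrt 3 + 18 * t + 2 * Real.sqrt 3 * t ^ 2) (𝓝[>] 0)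
      (𝓝 (14 * Real.sqrt 3)) := by
    have h : Continuous fun t : ℝ => 14 * Real.sqrt 3 + 18 * t + 2 * Real.sqrt 3 * t ^ 2 := by
      fun_prop
    have h' := h.tendsto 0
    simp only [mul_zero, ne_eq, OfNat.ofNat_ne_zero, not_false_eq_true, zero_pow, add_zero] at h'
    exact h'.mono_left nhdsWithin_le_nhds
  refine tendsto_of_tendsto_of_tendsto_of_le_of_le' tendsto_const_nhds hup ?_ ?_
  · filter_upwards [self_mem_nhdsWithin] with t ht
    have ht : 0 < t := ht
    show 14 * Real.sqrt 3 ≤ (vol (B 2 4 + closedBall (0 : E3) t) - vol (B 2 4)) / (2 * t)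
    rw [le_div_iff₀ (by linarith)]
    set c : ℝ := 2 * t / Real.sqrt 3 with hc
    have hc0 : 0 ≤ c := by positivity
    have hct : Real.sqrt 3 * c = 2 * t := by rw [hc]; field_simp
    have h1 := vol_fbox_ge hK hKc (c • EuclideanSpace.single 0 1) (c • EuclideanSpace.single 1 1)
      (c • EuclideanSpace.single 2 1)
    have hg : ∀ j : Fin 3, 14 * c ≤ G (B 2 4) (c • EuclideanSpace.single j 1) := by
      intro j
      refine le_trans (le_of_eq ?_) (hS _)
      simp only [y_smul, abs_mul, y_single, mul_one, abs_of_nonneg hc0, Fin.sum_univ_four]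
      ring
    have h2 := hg 0
    have h4 := hg 1
    have h5 := hg 2
    have h6 : vol (B 2 4 + fbox (c • EuclideanSpace.single 0 1) (c • EuclideanSpace.single 1 1)
        (c • EuclideanSpace.single 2 1)) ≤ vol (B 2 4 + closedBall (0 : E3) t) := by
      rw [← vol_translate (B 2 4 + fbox (c • EuclideanSpace.single 0 1)
        (c • EuclideanSpace.single 1 1) (c • EuclideanSpace.single 2 1))
        (-((c / 2) • (EuclideanSpace.single 0 1 + EuclideanSpace.single 1 1 +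
          EuclideanSpace.single 2 1))), add_assoc]
      exact vol_mono (add_subset_add_left (cube_subset hc0 (by linarith)))
        (hK.add (isCompact_closedBall _ _))
    have h7 : 14 * Real.sqrt 3 * (2 * t) = 42 * c := by
      have : Real.sqrt 3 * (Real.sqrt 3 * c) = 3 * c := by
        rw [← mul_assoc, ← sq, h3]
      rw [hct] at this
      linarith
    linarith
  · filter_upwards [self_mem_nhdsWithin] with t ht
    have ht : 0 < t := ht
    show (vol (B 2 4 + closedBall (0 : E3) t) - vol (B 2 4)) / (2 * t) ≤ _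
    rw [div_le_iff₀ (by linarith)]
    have hs : 0 ≤ Real.sqrt 3 * t := by positivity
    have h1 : vol (B 2 4 + closedBall (0 : E3) t) ≤
        vol (B (2 + Real.sqrt 3 * t) (4 + Real.sqrt 3 * t)) :=
      vol_mono add_ball_subset (hC _ _ (by linarith) (by linarith)).1
    rw [vol_eq hV hs] at h1
    have e2 : (Real.sqrt 3 * t) ^ 2 = 3 * t ^ 2 := by rw [mul_pow, h3]
    have e3 : (Real.sqrt 3 * t) ^ 3 = 3 * Real.sqrt 3 * t ^ 3 := by
      rw [mul_pow, pow_succ, h3]
    rw [e2, e3] at h1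
    rw [v0]
    nlinarith [h1]

end Pool.Agent.K7.H10.IQ
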