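import Pool.Agent.K7.H39.IQ.Stm

/-!
# Project IQ (MP_598757_gt), job POS: the projections have positive perimeter
-/

set_option autoImplicit false

namespace Pool.Agent.K7.H10.IQ

open Metric Set MeasureTheory Filter Topology Pool.Agent.K7.H39.Cube Pool.Agent.K7.H39.IQ
open scoped Pointwise

theorem y_add (i : Fin 4) (x z : E3) : y i (x + z) = y i x + y i z := by
  fin_cases i <;> simp [y] <;> ring

theorem y_smul (i : Fin 4) (c : ℝ) (x : E3) : y i (c • x) = c * y i x := by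
  fin_cases i <;> simp [y] <;> ring

theorem norm_sq3 (x : E3) : ‖x‖ ^ 2 = x 0 ^ 2 + x 1 ^ 2 + x 2 ^ 2 := by
  rw [EuclideanSpace.real_norm_sq_eq, Fin.sum_univ_three]

theorem abs_y_le (i : Fin 4) (x : E3) : |y i x| ≤ Real.sqrt 3 * ‖x‖ := by
  have h3 : (Real.sqrt 3) ^ 2 = 3 := Real.sq_sqrt (by norm_num)
  have hx := norm_sq3 x
  have key : (y i x) ^ 2 ≤ (Real.sqrt 3 * ‖x‖) ^ 2 := by
    rw [mul_pow, h3, hx]
    fin_cases i <;> simp [y] <;>
      nlinarith [sq_nonneg (x 0 - x 1), sq_nonneg (x 1 - x 2), sq_nonneg (x 0 - x 2),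
        sq_nonneg (x 0 + x 1), sq_nonneg (x 1 + x 2), sq_nonneg (x 0 + x 2)]
  exact abs_le_of_sq_le_sq key (by positivity)

theorem sqrt3_le : Real.sqrt 3 ≤ 2 := by
  rw [Real.sqrt_le_left (by norm_num)]
  norm_num

theorem mem_B_of_norm {x : E3} (hx : ‖x‖ ≤ 1) : x ∈ B 2 4 := by
  intro i
  have h1 := abs_y_le i x
  have h2 : Real.sqrt 3 * ‖x‖ ≤ 2 * 1 :=
    mul_le_mul sqrt3_le hx (norm_nonneg _) (by norm_num)
  have h3 := abs_le.1 (h1.trans h2)
  constructor <;> linarith [h3.1, h3.2]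

theorem continuous_h {K : Set E3} (hK : IsCompact K) : Continuous (h K) := by
  unfold h
  exact hK.continuous_sSup (f := fun v x => inner ℝ v x) (by fun_prop)

theorem one_le_h {K : Set E3} (hK : IsCompact K) {v : E3} (hv : ‖v‖ = 1) (hvK : v ∈ K) :
    1 ≤ h K v := by
  have h1 : BddAbove ((fun x => inner ℝ v x) '' K) :=
    (hK.image (by fun_prop)).bddAbove
  have h2 := le_csSup h1 (mem_image_of_mem _ hvK)
  have h3 : inner ℝ v v = (1 : ℝ) := by rw [real_inner_self_eq_norm_sq, hv]; norm_num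
  simp only [h3] at h2
  exact h2

theorem norm_circle {a b : E3} (ha : ‖a‖ = 1) (hb : ‖b‖ = 1) (hab : inner ℝ a b = (0 : ℝ)) (θ : ℝ) :
    ‖Real.cos θ • a + Real.sin θ • b‖ = 1 := by
  have h1 : ‖Real.cos θ • a + Real.sin θ • b‖ ^ 2 = 1 := by
    rw [norm_add_sq_real, norm_smul, norm_smul, ha, hb, real_inner_smul_left, real_inner_smul_right,
      hab]
    simp only [Real.norm_eq_abs, mul_one, sq_abs, mul_zero, add_zero]
    linarith [Real.sin_sq_add_cos_sq θ]
  have h2 : 0 ≤ ‖Real.cos θ • a + Real.sin θ • b‖ := norm_nonneg _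
  nlinarith

/-- job POS -/
theorem pos (hC : S_CPT) : S_POS := by
  intro a b ha hb hab
  have hK : IsCompact (B 2 4) := (hC 2 4 (by norm_num) (by norm_num)).1
  have hc : Continuous fun θ : ℝ => h (B 2 4) (Real.cos θ • a + Real.sin θ • b) :=
    (continuous_h hK).comp (by fun_prop)
  have h1 : ∫ θ in (0 : ℝ)..(2 * Real.pi), (1 : ℝ) ≤
      ∫ θ in (0 : ℝ)..(2 * Real.pi), h (B 2 4) (Real.cos θ • a + Real.sin θ • b) := by
    apply intervalIntegral.integral_mono_on (by positivity) (by simp)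
      (hc.intervalIntegrable _ _)
    intro θ _
    have hn := norm_circle ha hb hab θ
    exact one_le_h hK hn (mem_B_of_norm hn.le)
  rw [intervalIntegral.integral_const, smul_eq_mul, mul_one, sub_zero] at h1
  unfold V1
  have := Real.pi_pos
  nlinarith

end Pool.Agent.K7.H10.IQ
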