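import Mathlib

set_option autoImplicit false

open MvPolynomial

namespace Pool.Agent.K7.H10.LSS

universe u

/-- The Lovász–Saks–Schrijver ideal of the graph `G` in dimension `d` over the field `k`: the ideal
of the polynomial ring in the variables `X (v, j)` (`v` a vertex, `j < d`) generated by
`∑ j, X (v, j) * X (w, j)` for all edges `{v, w}` of `G`. -/
noncomputable def LSSIdeal (k : Type u) [Field k] {V : Type} (G : SimpleGraph V) (d : ℕ) :
    Ideal (MvPolynomial (V × Fin d) k) :=
  Ideal.span {f | ∃ v w, G.Adj v w ∧ f = ∑ j : Fin d, X (v, j) * X (w, j)}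

section Abstract

theorem option_indep {k S T ι : Type*} [Field k] [CommRing S] [IsDomain S] [Algebra k S]
    [CommRing T] [Algebra k T] (ρ : S →ₐ[k] T) (x : ι → S)
    (hx : AlgebraicIndependent k (ρ ∘ x)) (f : S) (hf : f ≠ 0) (hρ : ρ f = 0) :
    AlgebraicIndependent k (fun o : Option ι => o.elim f x) := by
  have hx' : AlgebraicIndependent k x := AlgebraicIndependent.of_comp ρ hx
  rw [hx'.option_iff_transcendental]
  intro halg
  have hf' : f ∈ nonZeroDivisors S := mem_nonZeroDivisors_of_ne_zero hf
  obtain ⟨q, hq0, hq⟩ := halg.exists_nonzero_coeff_and_aeval_eq_zero hf'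
  apply hq0
  -- the constant coefficient
  have h1 : ρ ((q.coeff 0 : Algebra.adjoin k (Set.range x)) : S) = 0 := by
    have h2 := congrArg ρ hq
    rw [Polynomial.aeval_eq_sum_range, map_sum, map_zero] at h2
    rw [Finset.sum_range_succ'] at h2
    have h3 : ∀ i ∈ Finset.range q.natDegree, ρ (q.coeff (i + 1) • f ^ (i + 1)) = 0 := by
      intro i _
      rw [Algebra.smul_def, map_mul, map_pow, hρ]
      simp
    rw [Finset.sum_eq_zero h3, zero_add] at h2
    simpa [Algebra.smul_def] using h2
  have h4 : ∀ c : S, c ∈ Algebra.adjoin k (Set.range x) → ∃ P : MvPolynomial ι k, aeval x P = c := by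
    intro c hc
    rw [Algebra.adjoin_range_eq_range_aeval] at hc
    exact hc
  obtain ⟨P, hP⟩ := h4 _ (q.coeff 0).2
  have h5 : aeval (ρ ∘ x) P = 0 := by
    have : aeval (ρ ∘ x) P = ρ (aeval x P) := by
      exact (MvPolynomial.comp_aeval_apply (f := x) ρ P).symm
    rw [this]
    rw [hP, h1]
  have h6 : P = 0 := hx.eq_zero_of_aeval_eq_zero _ h5
  apply Subtype.ext
  rw [← hP, h6]
  simp

end Abstract

section Graph

/-- The complement in `K_{m,m}` of a Hamiltonian cycle: the vertex `i` on the left is joined to all
the vertices on the right but `i` and `i + 1` (modulo `m`). -/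
def cyc (m : ℕ) : SimpleGraph (Fin m ⊕ Fin m) where
  Adj u v := match u, v with
    | .inl i, .inr j => j.val ≠ i.val ∧ j.val ≠ (i.val + 1) % m
    | .inr j, .inl i => j.val ≠ i.val ∧ j.val ≠ (i.val + 1) % m
    | _, _ => False
  symm := ⟨by
    intro u v h
    match u, v, h with
    | .inl i, .inr j, h => exact h
    | .inr j, .inl i, h => exact h⟩
  loopless := ⟨by
    intro u h
    match u, h with
    | .inl i, h => exact h
    | .inr i, h => exact h⟩

theorem cyc_le (m : ℕ) : cyc m ≤ completeBipartiteGraph (Fin m) (Fin m) := by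
  intro u v h
  match u, v, h with
  | .inl i, .inr j, _ => simp [completeBipartiteGraph]
  | .inr j, .inl i, _ => simp [completeBipartiteGraph]

theorem univ_of_closed {m : ℕ} (A : Finset (Fin m)) (hA : A.Nonempty)
    (h : ∀ i ∈ A, ∀ j : Fin m, j.val = (i.val + 1) % m → j ∈ A) : A = Finset.univ := by
  obtain ⟨a, ha⟩ := hA
  have hm : 0 < m := a.pos
  have key : ∀ n : ℕ, (⟨(a.val + n) % m, Nat.mod_lt _ hm⟩ : Fin m) ∈ A := by
    intro n
    induction n with
    | zero =>
      have : (⟨(a.val + 0) % m, Nat.mod_lt _ hm⟩ : Fin m) = a := by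
        ext
        simp [Nat.mod_eq_of_lt a.isLt]
      rw [this]; exact ha
    | succ n ih =>
      refine h _ ih _ ?_
      simp only [Nat.mod_add_mod]
      congr 1
  refine Finset.eq_univ_of_forall fun x => ?_
  have := key (m - a.val + x.val)
  have h2 : (⟨(a.val + (m - a.val + x.val)) % m, Nat.mod_lt _ hm⟩ : Fin m) = x := by
    ext
    have h3 : a.val + (m - a.val + x.val) = m + x.val := by
      have := a.isLt
      omega
    simp only [h3, Nat.add_mod_left]
    exact Nat.mod_eq_of_lt x.isLt
  rwa [h2] at this

theorem card_lt_of_nonadj {m : ℕ} (A B : Finset (Fin m)) (hA : A.Nonempty) (hB : B.Nonempty)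
    (h : ∀ i ∈ A, ∀ j ∈ B, j.val ≠ i.val ∧ j.val ≠ (i.val + 1) % m) :
    A.card + B.card < m := by
  classical
  have hm : 0 < m := by obtain ⟨a, _⟩ := hA; exact a.pos
  let s : Fin m → Fin m := fun i => ⟨(i.val + 1) % m, Nat.mod_lt _ hm⟩
  let A' := A ∪ A.image s
  have hdisj : Disjoint A' B := by
    rw [Finset.disjoint_left]
    intro x hx hxB
    rcases Finset.mem_union.1 hx with hx | hx
    · exact (h x hx x hxB).1 rfl
    · obtain ⟨i, hi, rfl⟩ := Finset.mem_image.1 hx
      exact (h i hi _ hxB).2 rfl
  have hcard : A'.card + B.card ≤ m := by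
    rw [← Finset.card_union_of_disjoint hdisj]
    simpa using Finset.card_le_univ (A' ∪ B)
  have hlt : A.card < A'.card := by
    apply Finset.card_lt_card
    rw [Finset.ssubset_iff_subset_ne]
    refine ⟨Finset.subset_union_left, ?_⟩
    intro heq
    have huniv : A = Finset.univ := by
      apply univ_of_closed A hA
      intro i hi j hj
      rw [heq]
      apply Finset.mem_union_right
      rw [Finset.mem_image]
      exact ⟨i, hi, Fin.ext hj.symm⟩
    obtain ⟨b, hb⟩ := hB
    exact (h b (huniv ▸ Finset.mem_univ _) b hb).1 rfl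
  omega

theorem cyc_free (m a b : ℕ) (ha : 1 ≤ a) (hb : 1 ≤ b) (hab : m ≤ a + b) :
    ¬ (completeBipartiteGraph (Fin a) (Fin b)).IsContained (cyc m) := by
  classical
  rintro ⟨f⟩
  have hadj : ∀ (i : Fin a) (j : Fin b), (cyc m).Adj (f (.inl i)) (f (.inr j)) := by
    intro i j
    apply f.toHom.map_rel
    simp [completeBipartiteGraph]
  have hinj : Function.Injective f := f.injective
  let i0 : Fin a := ⟨0, ha⟩
  let j0 : Fin b := ⟨0, hb⟩
  rcases h0 : f (.inl i0) with i | i
  · -- left side goes left
    have hr : ∀ j : Fin b, ∃ y, f (.inr j) = .inr y := by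
      intro j
      have := hadj i0 j
      rw [h0] at this
      rcases h1 : f (.inr j) with y | y
      · rw [h1] at this; exact this.elim
      · exact ⟨y, rfl⟩
    have hl : ∀ i : Fin a, ∃ y, f (.inl i) = .inl y := by
      intro i
      have := hadj i j0
      obtain ⟨y, hy⟩ := hr j0
      rw [hy] at this
      rcases h1 : f (.inl i) with z | z
      · exact ⟨z, rfl⟩
      · rw [h1] at this; exact this.elim
    choose r hr using hr
    choose l hl using hl
    have hrinj : Function.Injective r := by
      intro x y hxy
      have : f (.inr x) = f (.inr y) := by rw [hr, hr, hxy]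
      exact Sum.inr_injective (hinj this)
    have hlinj : Function.Injective l := by
      intro x y hxy
      have : f (.inl x) = f (.inl y) := by rw [hl, hl, hxy]
      exact Sum.inl_injective (hinj this)
    have := card_lt_of_nonadj (Finset.univ.image l) (Finset.univ.image r)
      ⟨l i0, Finset.mem_image_of_mem _ (Finset.mem_univ _)⟩
      ⟨r j0, Finset.mem_image_of_mem _ (Finset.mem_univ _)⟩ (by
        intro x hx y hy
        obtain ⟨i, _, rfl⟩ := Finset.mem_image.1 hx
        obtain ⟨j, _, rfl⟩ := Finset.mem_image.1 hy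
        have := hadj i j
        rw [hl, hr] at this
        exact this)
    rw [Finset.card_image_of_injective _ hlinj, Finset.card_image_of_injective _ hrinj] at this
    simp at this
    omega
  · have hr : ∀ j : Fin b, ∃ y, f (.inr j) = .inl y := by
      intro j
      have := hadj i0 j
      rw [h0] at this
      rcases h1 : f (.inr j) with y | y
      · exact ⟨y, rfl⟩
      · rw [h1] at this; exact this.elim
    have hl : ∀ i : Fin a, ∃ y, f (.inl i) = .inr y := by
      intro i
      have := hadj i j0
      obtain ⟨y, hy⟩ := hr j0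
      rw [hy] at this
      rcases h1 : f (.inl i) with z | z
      · rw [h1] at this; exact this.elim
      · exact ⟨z, rfl⟩
    choose r hr using hr
    choose l hl using hl
    have hrinj : Function.Injective r := by
      intro x y hxy
      have : f (.inr x) = f (.inr y) := by rw [hr, hr, hxy]
      exact Sum.inr_injective (hinj this)
    have hlinj : Function.Injective l := by
      intro x y hxy
      have : f (.inl x) = f (.inl y) := by rw [hl, hl, hxy]
      exact Sum.inl_injective (hinj this)
    have := card_lt_of_nonadj (Finset.univ.image r) (Finset.univ.image l)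
      ⟨r j0, Finset.mem_image_of_mem _ (Finset.mem_univ _)⟩
      ⟨l i0, Finset.mem_image_of_mem _ (Finset.mem_univ _)⟩ (by
        intro x hx y hy
        obtain ⟨i, _, rfl⟩ := Finset.mem_image.1 hx
        obtain ⟨j, _, rfl⟩ := Finset.mem_image.1 hy
        have := hadj j i
        rw [hl, hr] at this
        exact this)
    rw [Finset.card_image_of_injective _ hlinj, Finset.card_image_of_injective _ hrinj] at this
    simp at this
    omega

end Graph


end Pool.Agent.K7.H10.LSS
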