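import Pool.Agent.K7.H10.LSSa

set_option autoImplicit false

open MvPolynomial

namespace Pool.Agent.K7.H10.LSS

universe u

section Param

variable (k : Type u) [Field k] (s : ℕ)

/-- the vertices -/
abbrev Vt (s : ℕ) := Fin (s + 3) ⊕ Fin (s + 3)

/-- the polynomial ring -/
abbrev PR (k : Type u) [Field k] (s : ℕ) := MvPolynomial (Vt s × Fin (s + 2)) k

/-- the field of rational functions -/
abbrev FR (k : Type u) [Field k] (s : ℕ) := FractionRing (PR k s)

/-- the variables of the left vectors -/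
noncomputable def xp (i : Fin (s + 3)) (c : Fin (s + 2)) : PR k s := X (.inl i, c)

/-- variables in the fraction field -/
noncomputable def xv (v : Vt s × Fin (s + 2)) : FR k s := algebraMap (PR k s) (FR k s) (X v)

noncomputable def xl (i : Fin (s + 3)) (c : Fin (s + 2)) : FR k s := xv k s (.inl i, c)
noncomputable def xr (i : Fin (s + 3)) (c : Fin (s + 2)) : FR k s := xv k s (.inr i, c)

noncomputable def Dl : FR k s := xl k s 0 0 * xl k s 1 1 - xl k s 0 1 * xl k s 1 0

theorem Dl_ne : Dl k s ≠ 0 := by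
  have h : Dl k s = algebraMap (PR k s) (FR k s)
      (xp k s 0 0 * xp k s 1 1 - xp k s 0 1 * xp k s 1 0) := by
    rw [map_sub, map_mul, map_mul]
    rfl
  rw [h]
  intro h0
  have h1 : xp k s 0 0 * xp k s 1 1 - xp k s 0 1 * xp k s 1 0 = 0 := by
    apply IsFractionRing.injective (PR k s) (FR k s)
    rw [h0, map_zero]
  have h2 := congrArg (MvPolynomial.eval (fun v : Vt s × Fin (s + 2) => match v.1 with
    | .inl i => if i.val = v.2.val then (1 : k) else 0
    | .inr _ => 0)) h1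
  have v0 : ((0 : Fin (s + 3)) : ℕ) = 0 := rfl
  have v1 : ((1 : Fin (s + 3)) : ℕ) = 1 := by simp
  have w0 : ((0 : Fin (s + 2)) : ℕ) = 0 := rfl
  have w1 : ((1 : Fin (s + 2)) : ℕ) = 1 := by simp
  simp only [xp, map_sub, map_mul, MvPolynomial.eval_X, v0, v1, w0, w1, map_zero] at h2
  norm_num at h2

noncomputable def Sc (i : Fin (s + 3)) : FR k s :=
  (xl k s i 0 * xl k s 1 1 - xl k s i 1 * xl k s 1 0) / Dl k s
noncomputable def Tc (i : Fin (s + 3)) : FR k s :=
  (xl k s i 1 * xl k s 0 0 - xl k s i 0 * xl k s 0 1) / Dl k s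

/-- the rows of the left vectors -/
noncomputable def Al (i : Fin (s + 3)) (c : Fin (s + 2)) : FR k s :=
  Sc k s i * xl k s 0 c + Tc k s i * xl k s 1 c

theorem Sc_zero : Sc k s 0 = 1 := by
  rw [Sc, div_eq_one_iff_eq (Dl_ne k s), Dl]
theorem Tc_zero : Tc k s 0 = 0 := by
  rw [Tc, div_eq_zero_iff]; left; ring
theorem Sc_one : Sc k s 1 = 0 := by
  rw [Sc, div_eq_zero_iff]; left; ring
theorem Tc_one : Tc k s 1 = 1 := by
  rw [Tc, div_eq_one_iff_eq (Dl_ne k s), Dl]; ring

theorem Al_zero (c : Fin (s + 2)) : Al k s 0 c = xl k s 0 c := by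
  simp [Al, Sc_zero, Tc_zero]
theorem Al_one (c : Fin (s + 2)) : Al k s 1 c = xl k s 1 c := by
  simp [Al, Sc_one, Tc_one]

theorem Al_c0 (i : Fin (s + 3)) : Al k s i 0 = xl k s i 0 := by
  have h := Dl_ne k s
  rw [Al, Sc, Tc, div_mul_eq_mul_div, div_mul_eq_mul_div, ← add_div, div_eq_iff h, Dl]
  ring
theorem Al_c1 (i : Fin (s + 3)) : Al k s i 1 = xl k s i 1 := by
  have h := Dl_ne k s
  rw [Al, Sc, Tc, div_mul_eq_mul_div, div_mul_eq_mul_div, ← add_div, div_eq_iff h, Dl]
  ring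

noncomputable def pj (j : Fin (s + 3)) : FR k s :=
  ∑ c : Fin s, xl k s 0 c.succ.succ * xr k s j c.succ.succ
noncomputable def qj (j : Fin (s + 3)) : FR k s :=
  ∑ c : Fin s, xl k s 1 c.succ.succ * xr k s j c.succ.succ

noncomputable def Br (j : Fin (s + 3)) : Fin (s + 2) → FR k s :=
  Fin.cons ((-(pj k s j) * xl k s 1 1 + qj k s j * xl k s 0 1) / Dl k s)
    (Fin.cons ((-(qj k s j) * xl k s 0 0 + pj k s j * xl k s 1 0) / Dl k s)
      (fun c => xr k s j c.succ.succ))

theorem orth0 (j : Fin (s + 3)) : ∑ c, xl k s 0 c * Br k s j c = 0 := by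
  have h := Dl_ne k s
  rw [Fin.sum_univ_succ, Fin.sum_univ_succ]
  have e : ∑ c : Fin s, xl k s 0 c.succ.succ * Br k s j c.succ.succ = pj k s j := rfl
  rw [e]
  have e0 : Br k s j 0 = (-(pj k s j) * xl k s 1 1 + qj k s j * xl k s 0 1) / Dl k s := rfl
  have e1 : Br k s j (Fin.succ 0) = (-(qj k s j) * xl k s 0 0 + pj k s j * xl k s 1 0) / Dl k s := rfl
  have e2 : (Fin.succ 0 : Fin (s + 2)) = 1 := rfl
  rw [e0, e1, e2]
  field_simp
  rw [Dl]
  ring

theorem orth1 (j : Fin (s + 3)) : ∑ c, xl k s 1 c * Br k s j c = 0 := by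
  have h := Dl_ne k s
  rw [Fin.sum_univ_succ, Fin.sum_univ_succ]
  have e : ∑ c : Fin s, xl k s 1 c.succ.succ * Br k s j c.succ.succ = qj k s j := rfl
  rw [e]
  have e0 : Br k s j 0 = (-(pj k s j) * xl k s 1 1 + qj k s j * xl k s 0 1) / Dl k s := rfl
  have e1 : Br k s j (Fin.succ 0) = (-(qj k s j) * xl k s 0 0 + pj k s j * xl k s 1 0) / Dl k s := rfl
  have e2 : (Fin.succ 0 : Fin (s + 2)) = 1 := rfl
  rw [e0, e1, e2]
  field_simp
  rw [Dl]
  ring

theorem orth (i j : Fin (s + 3)) : ∑ c, Al k s i c * Br k s j c = 0 := by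
  have : ∀ c, Al k s i c * Br k s j c =
      Sc k s i * (xl k s 0 c * Br k s j c) + Tc k s i * (xl k s 1 c * Br k s j c) := by
    intro c; rw [Al]; ring
  simp_rw [this]
  rw [Finset.sum_add_distrib, ← Finset.mul_sum, ← Finset.mul_sum, orth0, orth1]
  simp

/-- the parametrization of the locus where the left vectors span a plane -/
noncomputable def rho : PR k s →ₐ[k] FR k s :=
  aeval (fun v => match v.1 with
    | .inl i => Al k s i v.2
    | .inr j => Br k s j v.2)

theorem rho_l (i : Fin (s + 3)) (c : Fin (s + 2)) : rho k s (X (.inl i, c)) = Al k s i c := by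
  simp [rho]
theorem rho_xp (i : Fin (s + 3)) (c : Fin (s + 2)) : rho k s (xp k s i c) = Al k s i c :=
  rho_l k s i c
theorem rho_r (i : Fin (s + 3)) (c : Fin (s + 2)) : rho k s (X (.inr i, c)) = Br k s i c := by
  simp [rho]

theorem rho_LSS : ∀ f ∈ LSSIdeal k (cyc (s + 3)) (s + 2), rho k s f = 0 := by
  intro f hf
  have : LSSIdeal k (cyc (s + 3)) (s + 2) ≤ RingHom.ker (rho k s) := by
    rw [LSSIdeal, Ideal.span_le]
    rintro _ ⟨v, w, hvw, rfl⟩
    rw [SetLike.mem_coe, RingHom.mem_ker]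
    match v, w, hvw with
    | .inl i, .inr j, _ =>
      simp only [map_sum, map_mul, rho_l, rho_r]
      exact orth k s i j
    | .inr j, .inl i, _ =>
      simp only [map_sum, map_mul, rho_l, rho_r]
      rw [← orth k s i j]
      exact Finset.sum_congr rfl fun c _ => mul_comm _ _
  exact this hf

/-- the free variables of the parametrization -/
abbrev Free (s : ℕ) := (Fin 2 × Fin (s + 2)) ⊕ ((Fin (s + 1) × Fin 2) ⊕ (Fin (s + 3) × Fin s))

def emb : Free s → Vt s × Fin (s + 2)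
  | .inl (i, c) => (.inl (Fin.castLE (by omega) i), c)
  | .inr (.inl (i, c)) => (.inl i.succ.succ, Fin.castLE (by omega) c)
  | .inr (.inr (j, c)) => (.inr j, c.succ.succ)

theorem emb_inj : Function.Injective (emb s) := by
  intro a b h
  rcases a with ⟨i, c⟩ | ⟨i, c⟩ | ⟨i, c⟩ <;> rcases b with ⟨i', c'⟩ | ⟨i', c'⟩ | ⟨i', c'⟩ <;>
    simp [emb, Fin.ext_iff, Prod.ext_iff] at h ⊢ <;> omega

theorem rho_emb (a : Free s) : rho k s (X (emb s a)) = algebraMap (PR k s) (FR k s) (X (emb s a)) := by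
  rcases a with ⟨i, c⟩ | ⟨i, c⟩ | ⟨i, c⟩
  · simp only [emb]
    rw [rho_l]
    rcases i with ⟨i, hi⟩
    have : i = 0 ∨ i = 1 := by omega
    rcases this with rfl | rfl
    · exact Al_zero k s c
    · exact Al_one k s c
  · simp only [emb]
    rw [rho_l]
    rcases c with ⟨c, hc⟩
    have : c = 0 ∨ c = 1 := by omega
    rcases this with rfl | rfl
    · exact Al_c0 k s _
    · exact Al_c1 k s _
  · simp only [emb]
    rw [rho_r]
    rfl

theorem indep_rho : AlgebraicIndependent k (fun a : Free s => rho k s (X (emb s a))) := by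
  have h1 : AlgebraicIndependent k (X : Vt s × Fin (s + 2) → PR k s) :=
    MvPolynomial.algebraicIndependent_X _ _
  have h2 := h1.map' (f := IsScalarTower.toAlgHom k (PR k s) (FR k s))
    (IsFractionRing.injective (PR k s) (FR k s))
  have h3 := h2.comp (emb s) (emb_inj s)
  convert h3 using 2 with a
  exact rho_emb k s a

/-- a relation on the locus -/
noncomputable def ff : PR k s :=
  (xp k s 0 0 * xp k s 1 1 - xp k s 0 1 * xp k s 1 0) * xp k s 2 2
  - (xp k s 2 0 * xp k s 1 1 - xp k s 2 1 * xp k s 1 0) * xp k s 0 2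
  - (xp k s 2 1 * xp k s 0 0 - xp k s 2 0 * xp k s 0 1) * xp k s 1 2

theorem rho_ff : rho k s (ff k s) = 0 := by
  have h := Dl_ne k s
  rw [ff, map_sub, map_sub, map_mul, map_mul, map_mul, map_sub, map_sub, map_sub, map_mul, map_mul,
    map_mul, map_mul, map_mul, map_mul]
  simp only [rho_xp]
  rw [Al_c0 k s 0, Al_c1 k s 1, Al_c1 k s 0, Al_c0 k s 1, Al_c0 k s 2, Al_c1 k s 2,
    Al_zero k s 2, Al_one k s 2]
  have e : Dl k s * Al k s 2 2 = (xl k s 2 0 * xl k s 1 1 - xl k s 2 1 * xl k s 1 0) * xl k s 0 2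
    + (xl k s 2 1 * xl k s 0 0 - xl k s 2 0 * xl k s 0 1) * xl k s 1 2 := by
    rw [Al, Sc, Tc]
    field_simp
  have e2 : Dl k s = xl k s 0 0 * xl k s 1 1 - xl k s 0 1 * xl k s 1 0 := rfl
  rw [← e2, e]
  ring

end Param

section Points

variable (k : Type u) [Field k] (s : ℕ)

/-- every assignment with all right vectors zero is a point of the LSS variety -/
theorem eval_LSS (a : Fin (s + 3) → Fin (s + 2) → k) (f : PR k s)
    (hf : f ∈ LSSIdeal k (cyc (s + 3)) (s + 2)) :
    MvPolynomial.eval (fun v : Vt s × Fin (s + 2) => match v.1 with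
      | .inl i => a i v.2
      | .inr _ => (0 : k)) f = 0 := by
  have : LSSIdeal k (cyc (s + 3)) (s + 2) ≤ RingHom.ker (MvPolynomial.eval
    (fun v : Vt s × Fin (s + 2) => match v.1 with
      | .inl i => a i v.2
      | .inr _ => (0 : k))) := by
    rw [LSSIdeal, Ideal.span_le]
    rintro _ ⟨v, w, hvw, rfl⟩
    rw [SetLike.mem_coe, RingHom.mem_ker]
    match v, w, hvw with
    | .inl i, .inr j, _ => simp
    | .inr j, .inl i, _ => simp
  exact this hf

theorem ff_notMem (hs : 1 ≤ s) : ff k s ∉ LSSIdeal k (cyc (s + 3)) (s + 2) := by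
  intro h
  have h1 := eval_LSS k s (fun i c => if i.val = c.val then 1 else 0) _ h
  have v0 : ((0 : Fin (s + 3)) : ℕ) = 0 := rfl
  have v1 : ((1 : Fin (s + 3)) : ℕ) = 1 := by simp
  have v2 : ((2 : Fin (s + 3)) : ℕ) = 2 := by
    rw [Fin.coe_ofNat_eq_mod]; exact Nat.mod_eq_of_lt (by omega)
  have w0 : ((0 : Fin (s + 2)) : ℕ) = 0 := rfl
  have w1 : ((1 : Fin (s + 2)) : ℕ) = 1 := by simp
  have w2 : ((2 : Fin (s + 2)) : ℕ) = 2 := by
    rw [Fin.coe_ofNat_eq_mod]; exact Nat.mod_eq_of_lt (by omega)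
  simp only [ff, xp, map_sub, map_mul, MvPolynomial.eval_X, v0, v1, v2, w0, w1, w2] at h1
  norm_num at h1

/-- neighbours of the right vertex `j` -/
def nb (j : Fin (s + 3)) (t : Fin (s + 1)) : Fin (s + 3) :=
  ⟨(j.val + 1 + t.val) % (s + 3), Nat.mod_lt _ (by omega)⟩

theorem nb_adj (j : Fin (s + 3)) (t : Fin (s + 1)) :
    (cyc (s + 3)).Adj (.inl (nb s j t)) (.inr j) := by
  have hj := j.isLt
  have ht := t.isLt
  show j.val ≠ (nb s j t).val ∧ j.val ≠ ((nb s j t).val + 1) % (s + 3)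
  simp only [nb]
  constructor
  · intro h
    rcases Nat.lt_or_ge (j.val + 1 + t.val) (s + 3) with h1 | h1
    · rw [Nat.mod_eq_of_lt h1] at h; omega
    · rw [Nat.mod_eq_sub_mod h1, Nat.mod_eq_of_lt (by omega)] at h; omega
  · intro h
    rw [Nat.mod_add_mod] at h
    rcases Nat.lt_or_ge (j.val + 1 + t.val + 1) (s + 3) with h1 | h1
    · rw [Nat.mod_eq_of_lt h1] at h; omega
    · rw [Nat.mod_eq_sub_mod h1, Nat.mod_eq_of_lt (by omega)] at h; omega

/-- the minor -/
noncomputable def Mj (j : Fin (s + 3)) : Matrix (Fin (s + 1)) (Fin (s + 1)) (PR k s) :=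
  fun t c => X (.inl (nb s j t), c.succ)

theorem Mj_notMem (j : Fin (s + 3)) : (Mj k s j).det ∉ LSSIdeal k (cyc (s + 3)) (s + 2) := by
  intro h
  have h1 := eval_LSS k s (fun i c => if i.val = (j.val + c.val) % (s + 3) then 1 else 0) _ h
  rw [RingHom.map_det] at h1
  have h2 : (MvPolynomial.eval (fun v : Vt s × Fin (s + 2) => match v.1 with
      | .inl i => (if i.val = (j.val + v.2.val) % (s + 3) then (1 : k) else 0)
      | .inr _ => (0 : k))).mapMatrix (Mj k s j) = 1 := by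
    ext t c
    simp only [RingHom.mapMatrix_apply, Matrix.map_apply, Mj, MvPolynomial.eval_X, nb,
      Matrix.one_apply]
    have ht := t.isLt
    have hc := c.isLt
    have hj := j.isLt
    congr 1
    rw [Fin.ext_iff, Fin.val_succ]
    apply propext
    constructor
    · intro h
      have e1 : (j.val + 1 + t.val) = (j.val + 1) + t.val := rfl
      have e2 : (j.val + (c.val + 1)) = (j.val + 1) + c.val := by ring
      rw [e1, e2] at h
      have h3 : t.val ≡ c.val [MOD (s + 3)] := Nat.ModEq.add_left_cancel' _ h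
      exact Nat.ModEq.eq_of_lt_of_lt h3 (by omega) (by omega)
    · intro h
      rw [h]
      congr 1
      ring
  rw [h2, Matrix.det_one] at h1
  exact one_ne_zero h1

end Points


end Pool.Agent.K7.H10.LSS
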