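import Pool.Agent.K7.H10.LSSb

set_option autoImplicit false

open MvPolynomial

namespace Pool.Agent.K7.H10.LSS

universe u

section Main

variable (k : Type u) [Field k] (s : ℕ)

theorem not_prime (hs : 3 ≤ s) : ¬ (LSSIdeal k (cyc (s + 3)) (s + 2)).IsPrime := by
  intro hprime
  set L := LSSIdeal k (cyc (s + 3)) (s + 2) with hL
  let Q := PR k s ⧸ L
  have : IsDomain Q := Ideal.Quotient.isDomain L
  let π : PR k s →ₐ[k] Q := Ideal.Quotient.mkₐ k L
  have hπ : ∀ f, π f = 0 ↔ f ∈ L := fun f => Ideal.Quotient.eq_zero_iff_mem
  let ρ : Q →ₐ[k] FR k s := Ideal.Quotient.liftₐ L (rho k s) (rho_LSS k s)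
  have hρ : ∀ f, ρ (π f) = rho k s f := fun f => rfl
  -- lower bound
  have h1 : AlgebraicIndependent k
      (fun o : Option (Free s) => o.elim (π (ff k s)) (fun a => π (X (emb s a)))) := by
    apply option_indep ρ
    · exact indep_rho k s
    · rw [Ne, hπ]
      exact ff_notMem k s (by omega)
    · rw [hρ]; exact rho_ff k s
  -- upper bound
  let κ := (Fin (s + 3) × Fin (s + 2)) ⊕ Fin (s + 3)
  let y : κ → Q := fun a => match a with
    | .inl (i, c) => π (X (.inl i, c))
    | .inr j => π (X (.inr j, 0))
  let R0 := Algebra.adjoin k (Set.range y)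
  have hy : ∀ a, y a ∈ R0 := fun a => Algebra.subset_adjoin ⟨a, rfl⟩
  have halg : ∀ v, IsAlgebraic R0 (π (X v)) := by
    intro v
    rcases v with ⟨i | j, c⟩
    · exact isAlgebraic_algebraMap (⟨y (.inl (i, c)), hy (.inl (i, c))⟩ : R0)
    · refine Fin.cases ?_ (fun c => ?_) c
      · exact isAlgebraic_algebraMap (⟨y (.inr j), hy (.inr j)⟩ : R0)
      · -- Cramer's rule
        let M0 : Matrix (Fin (s + 1)) (Fin (s + 1)) R0 :=
          fun t c => ⟨y (.inl (nb s j t, c.succ)), hy (.inl (nb s j t, c.succ))⟩
        let w0 : Fin (s + 1) → R0 :=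
          fun t => - ((⟨y (.inl (nb s j t, 0)), hy (.inl (nb s j t, 0))⟩ : R0) * ⟨y (.inr j), hy (.inr j)⟩)
        let b : Fin (s + 1) → Q := fun c => π (X (.inr j, c.succ))
        let ι : R0 →+* Q := algebraMap R0 Q
        have hM : ι.mapMatrix M0 = π.toRingHom.mapMatrix (Mj k s j) := rfl
        have hMb : (ι.mapMatrix M0).mulVec b = fun t => ι (w0 t) := by
          funext t
          have hrel : π (∑ c : Fin (s + 2), X (.inl (nb s j t), c) * X (.inr j, c)) = 0 := by
            rw [hπ, hL]
            exact Ideal.subset_span ⟨_, _, nb_adj s j t, rfl⟩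
          rw [Fin.sum_univ_succ, map_add, map_sum] at hrel
          simp only [Matrix.mulVec, dotProduct]
          have e1 : ∀ c : Fin (s + 1), (ι.mapMatrix M0) t c * b c =
              π (X (.inl (nb s j t), c.succ) * X (.inr j, c.succ)) := by
            intro c
            rw [map_mul]
            rfl
          simp_rw [e1]
          have e2 : ι (w0 t) = - π (X (.inl (nb s j t), 0) * X (.inr j, 0)) := by
            rw [map_mul]
            show ι (-(_ * _)) = _
            rw [map_neg, map_mul]
            rfl
          rw [e2, eq_neg_iff_add_eq_zero, add_comm]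
          exact hrel
        have hdet : ι M0.det • b = (ι.mapMatrix M0.adjugate).mulVec (fun t => ι (w0 t)) := by
          rw [← hMb, Matrix.mulVec_mulVec, RingHom.map_adjugate, Matrix.adjugate_mul,
            RingHom.map_det]
          rw [Matrix.smul_mulVec, Matrix.one_mulVec]
        have hdetc := congrFun hdet c
        have hval : ι M0.det * π (X (.inr j, c.succ)) = ι (M0.adjugate.mulVec w0 c) := by
          rw [RingHom.map_mulVec]
          exact hdetc
        have hne : M0.det ≠ 0 := by
          intro h0
          have h3 : ι M0.det = 0 := by rw [h0, map_zero]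
          rw [RingHom.map_det, hM, ← RingHom.map_det] at h3
          exact Mj_notMem k s j ((hπ _).1 h3)
        refine ⟨Polynomial.C M0.det * Polynomial.X - Polynomial.C (M0.adjugate.mulVec w0 c), ?_, ?_⟩
        · intro h0
          have := congrArg (fun p => Polynomial.coeff p 1) h0
          simp at this
          exact hne (by simpa using this)
        · simp only [map_sub, map_mul, Polynomial.aeval_C, Polynomial.aeval_X]
          rw [sub_eq_zero]
          exact hval
  have hAlg : Algebra.IsAlgebraic R0 Q := by
    constructor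
    intro q
    have htop : (⊤ : Subalgebra k Q) ≤ (Subalgebra.algebraicClosure R0 Q).restrictScalars k := by
      have : (⊤ : Subalgebra k Q) = Algebra.adjoin k (Set.range fun v => π (X v)) := by
        have h5 := MvPolynomial.adjoin_range_X (R := k) (σ := Vt s × Fin (s + 2))
        have h6 := congrArg (Subalgebra.map π) h5
        rw [AlgHom.map_adjoin, Algebra.map_top, ← Set.range_comp] at h6
        rw [(AlgHom.range_eq_top π).2 (Ideal.Quotient.mkₐ_surjective k L)] at h6
        exact h6.symm
      rw [this, Algebra.adjoin_le_iff]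
      rintro _ ⟨v, rfl⟩
      exact halg v
    exact htop (Algebra.mem_top (x := q))
  have hup : Algebra.trdeg k Q ≤ Cardinal.mk (Set.range y) :=
    Algebra.IsAlgebraic.trdeg_le_cardinalMk k (Set.range y)
  have hlow := h1.lift_cardinalMk_le_trdeg
  have h7 : Cardinal.lift.{u} (Cardinal.mk (Option (Free s))) ≤ Cardinal.lift.{0} (Cardinal.mk (Set.range y)) :=
    hlow.trans (by simpa using hup)
  have h8 : Cardinal.lift.{0} (Cardinal.mk (Set.range y)) ≤ Cardinal.lift.{u} (Cardinal.mk κ) :=
    Cardinal.mk_range_le_lift
  have h9 := h7.trans h8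
  rw [Cardinal.lift_le] at h9
  simp only [Cardinal.mk_fintype, Nat.cast_le] at h9
  simp only [Fintype.card_option, Fintype.card_sum, Fintype.card_prod, Fintype.card_fin, κ] at h9
  nlinarith

end Main

end Pool.Agent.K7.H10.LSS
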