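import Mathlib
import Pool.Agent.K7.H81.PD.Stm

/-!
# Job RSZ of project PD (MP_7504ef_an): a positive distribution `m + Δ w` is a measure
-/

set_option autoImplicit false

noncomputable section

open MeasureTheory Filter Topology Set
open scoped ContDiff CompactlySupported Manifold

namespace Pool.Agent.K7.H10.PDRSZ

open Pool.Agent.K7.H81.PD

variable {N : ℕ}

theorem pd_add (i : Fin N) (f g : E N → ℝ) (hf : ContDiff ℝ ∞ f) (hg : ContDiff ℝ ∞ g) :
    pd i (f + g) = pd i f + pd i g := by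
  funext x
  have h1 : DifferentiableAt ℝ f x := (hf.differentiable (by simp)) x
  have h2 : DifferentiableAt ℝ g x := (hg.differentiable (by simp)) x
  simp only [pd, Pi.add_apply]
  rw [fderiv_add h1 h2]
  rfl

theorem pd_smul (i : Fin N) (c : ℝ) (f : E N → ℝ) (hf : ContDiff ℝ ∞ f) :
    pd i (c • f) = c • pd i f := by
  funext x
  have h1 : DifferentiableAt ℝ f x := (hf.differentiable (by simp)) x
  simp only [pd, Pi.smul_apply]
  rw [fderiv_const_smul h1]
  rfl

theorem pd_contDiff (i : Fin N) (f : E N → ℝ) (hf : ContDiff ℝ ∞ f) : ContDiff ℝ ∞ (pd i f) := by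
  have h : ContDiff ℝ ∞ (fderiv ℝ f) := hf.fderiv_right (by simp)
  exact h.clm_apply contDiff_const

theorem lap_add (f g : E N → ℝ) (hf : ContDiff ℝ ∞ f) (hg : ContDiff ℝ ∞ g) (x : E N) :
    lap (f + g) x = lap f x + lap g x := by
  simp only [lap]
  rw [← Finset.sum_add_distrib]
  refine Finset.sum_congr rfl fun i _ => ?_
  rw [pd_add i f g hf hg, pd_add i _ _ (pd_contDiff i f hf) (pd_contDiff i g hg)]
  rfl

theorem lap_smul (c : ℝ) (f : E N → ℝ) (hf : ContDiff ℝ ∞ f) (x : E N) :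
    lap (c • f) x = c * lap f x := by
  simp only [lap]
  rw [Finset.mul_sum]
  refine Finset.sum_congr rfl fun i _ => ?_
  rw [pd_smul i c f hf, pd_smul i c _ (pd_contDiff i f hf)]
  rfl

theorem lap_cont (f : E N → ℝ) (hf : ContDiff ℝ ∞ f) : Continuous (lap f) := by
  unfold lap
  exact continuous_finsetSum _ fun i _ => (pd_contDiff i _ (pd_contDiff i f hf)).continuous

theorem pd_supp (i : Fin N) (f : E N → ℝ) (hf : HasCompactSupport f) :
    HasCompactSupport (pd i f) := hf.fderiv_apply ℝ _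

theorem lap_bdd (f : E N → ℝ) (hf : ContDiff ℝ ∞ f) (hc : HasCompactSupport f) :
    ∃ C, ∀ x, ‖lap f x‖ ≤ C := by
  have h : ∀ i, ∃ C, ∀ x, ‖pd i (pd i f) x‖ ≤ C := fun i =>
    (pd_supp i _ (pd_supp i f hc)).exists_bound_of_continuous
      (pd_contDiff i _ (pd_contDiff i f hf)).continuous
  choose C hC using h
  refine ⟨∑ i, C i, fun x => ?_⟩
  exact (norm_sum_le _ _).trans (Finset.sum_le_sum fun i _ => hC i x)

theorem cci_add {Ω : Set (E N)} {f g : E N → ℝ} (hf : Cci Ω f) (hg : Cci Ω g) : Cci Ω (f + g) :=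
  ⟨hf.1.add hg.1, hf.2.1.add hg.2.1, (tsupport_add f g).trans (union_subset hf.2.2 hg.2.2)⟩

theorem cci_smul {Ω : Set (E N)} {f : E N → ℝ} (c : ℝ) (hf : Cci Ω f) : Cci Ω (c • f) := by
  refine ⟨hf.1.const_smul c, ?_, ?_⟩
  · exact hf.2.1.smul_left (f := fun _ => c)
  · exact (closure_mono (Function.support_const_smul_subset c f)).trans hf.2.2

theorem cci_zero (Ω : Set (E N)) : Cci Ω (0 : E N → ℝ) := by
  refine ⟨contDiff_const, HasCompactSupport.zero, ?_⟩
  simp [tsupport]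

/-- extension by zero -/
def ex {Ω : Set (E N)} (f : Ω → ℝ) : E N → ℝ := Function.extend Subtype.val f 0

theorem ex_mem {Ω : Set (E N)} (f : Ω → ℝ) (x : Ω) : ex f x = f x :=
  Subtype.val_injective.extend_apply f 0 x

theorem ex_not {Ω : Set (E N)} (f : Ω → ℝ) (x : E N) (hx : x ∉ Ω) : ex f x = 0 := by
  unfold ex
  rw [Function.extend_apply']
  · rfl
  · rintro ⟨a, rfl⟩
    exact hx a.2

theorem ex_add {Ω : Set (E N)} (f g : Ω → ℝ) : ex (f + g) = ex f + ex g := by
  funext x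
  by_cases hx : x ∈ Ω
  · have h1 := ex_mem (f + g) ⟨x, hx⟩
    have h2 := ex_mem f ⟨x, hx⟩
    have h3 := ex_mem g ⟨x, hx⟩
    simp only at h1 h2 h3
    rw [Pi.add_apply, h1, h2, h3, Pi.add_apply]
  · rw [Pi.add_apply, ex_not _ x hx, ex_not _ x hx, ex_not _ x hx, add_zero]

theorem ex_smul {Ω : Set (E N)} (c : ℝ) (f : Ω → ℝ) : ex (c • f) = c • ex f := by
  funext x
  by_cases hx : x ∈ Ω
  · have h1 := ex_mem (c • f) ⟨x, hx⟩
    have h2 := ex_mem f ⟨x, hx⟩
    simp only at h1 h2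
    rw [Pi.smul_apply, h1, h2, Pi.smul_apply]
  · rw [Pi.smul_apply, ex_not _ x hx, ex_not _ x hx, smul_zero]

theorem ex_res {Ω : Set (E N)} (φ : E N → ℝ) (h : tsupport φ ⊆ Ω) :
    ex (fun x : Ω => φ x) = φ := by
  funext x
  by_cases hx : x ∈ Ω
  · exact ex_mem (fun x : Ω => φ x) ⟨x, hx⟩
  · rw [ex_not _ x hx]
    have : x ∉ tsupport φ := fun h' => hx (h h')
    exact (image_eq_zero_of_notMem_tsupport this).symm

/-- the functional -/
def La (Ω : Set (E N)) (m : Measure (E N)) (w φ : E N → ℝ) : ℝ :=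
  (∫ x in Ω, φ x ∂m) + ∫ x in Ω, w x * lap φ x

theorem int1 {Ω : Set (E N)} (m : Measure (E N)) [IsFiniteMeasure m] {φ : E N → ℝ}
    (h : Cci Ω φ) : Integrable φ (m.restrict Ω) :=
  h.1.continuous.integrable_of_hasCompactSupport h.2.1

theorem int2 {Ω : Set (E N)} {w φ : E N → ℝ} (hw : IntegrableOn w Ω) (h : Cci Ω φ) :
    Integrable (fun x => w x * lap φ x) (volume.restrict Ω) := by
  obtain ⟨C, hC⟩ := lap_bdd φ h.1 h.2.1
  exact hw.mul_bdd (c := C) (lap_cont φ h.1).aestronglyMeasurable (Eventually.of_forall hC)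

theorem La_add {Ω : Set (E N)} (m : Measure (E N)) [IsFiniteMeasure m] {w f g : E N → ℝ}
    (hw : IntegrableOn w Ω) (hf : Cci Ω f) (hg : Cci Ω g) :
    La Ω m w (f + g) = La Ω m w f + La Ω m w g := by
  unfold La
  have e1 : ∫ x in Ω, (f + g) x ∂m = (∫ x in Ω, f x ∂m) + ∫ x in Ω, g x ∂m := by
    simp only [Pi.add_apply]
    exact integral_add (int1 m hf) (int1 m hg)
  have e2 : ∫ x in Ω, w x * lap (f + g) x = (∫ x in Ω, w x * lap f x) +
      ∫ x in Ω, w x * lap g x := by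
    rw [← integral_add (int2 hw hf) (int2 hw hg)]
    refine integral_congr_ae (Eventually.of_forall fun x => ?_)
    simp only [lap_add f g hf.1 hg.1 x, mul_add]
  rw [e1, e2]
  ring

theorem La_smul {Ω : Set (E N)} (m : Measure (E N)) [IsFiniteMeasure m] {w f : E N → ℝ} (c : ℝ)
    (hf : Cci Ω f) : La Ω m w (c • f) = c * La Ω m w f := by
  unfold La
  have e1 : ∫ x in Ω, (c • f) x ∂m = c * ∫ x in Ω, f x ∂m := by
    simp only [Pi.smul_apply, smul_eq_mul]
    exact integral_const_mul _ _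
  have e2 : ∫ x in Ω, w x * lap (c • f) x = c * ∫ x in Ω, w x * lap f x := by
    rw [← integral_const_mul]
    refine integral_congr_ae (Eventually.of_forall fun x => ?_)
    simp only [lap_smul c f hf.1 x]
    ring
  rw [e1, e2]
  ring

/-- the domain -/
def Dm (Ω : Set (E N)) : Submodule ℝ C_c(Ω, ℝ) where
  carrier := {f | Cci Ω (ex (f : Ω → ℝ))}
  add_mem' := by
    intro f g hf hg
    simp only [mem_ofPred_eq] at *
    rw [CompactlySupportedContinuousMap.coe_add, ex_add]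
    exact cci_add hf hg
  zero_mem' := by
    simp only [mem_ofPred_eq]
    have : ex ((0 : C_c(Ω, ℝ)) : Ω → ℝ) = 0 := by
      rw [CompactlySupportedContinuousMap.coe_zero]
      funext x
      by_cases hx : x ∈ Ω
      · exact ex_mem (0 : Ω → ℝ) ⟨x, hx⟩
      · exact ex_not _ x hx
    rw [this]
    exact cci_zero Ω
  smul_mem' := by
    intro c f hf
    simp only [mem_ofPred_eq] at *
    rw [CompactlySupportedContinuousMap.coe_smul, ex_smul]
    exact cci_smul c hf

/-- the partially defined functional -/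
def Lp (Ω : Set (E N)) (m : Measure (E N)) [IsFiniteMeasure m] (w : E N → ℝ)
    (hw : IntegrableOn w Ω) : C_c(Ω, ℝ) →ₗ.[ℝ] ℝ where
  domain := Dm Ω
  toFun :=
    { toFun := fun f => La Ω m w (ex ((f : C_c(Ω, ℝ)) : Ω → ℝ))
      map_add' := by
        intro f g
        have e : ex (((f + g : Dm Ω) : C_c(Ω, ℝ)) : Ω → ℝ) =
            ex ((f : C_c(Ω, ℝ)) : Ω → ℝ) + ex ((g : C_c(Ω, ℝ)) : Ω → ℝ) := by
          rw [Submodule.coe_add, CompactlySupportedContinuousMap.coe_add, ex_add]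
        simp only [e]
        exact La_add m hw f.2 g.2
      map_smul' := by
        intro c f
        have e : ex (((c • f : Dm Ω) : C_c(Ω, ℝ)) : Ω → ℝ) =
            c • ex ((f : C_c(Ω, ℝ)) : Ω → ℝ) := by
          rw [Submodule.coe_smul, CompactlySupportedContinuousMap.coe_smul, ex_smul]
        simp only [e]
        exact La_smul m c f.2 }

/-- the cone of the nonnegative functions -/
def cone (Ω : Set (E N)) : PointedCone ℝ C_c(Ω, ℝ) where
  carrier := {f | ∀ x, 0 ≤ f x}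
  add_mem' := fun {f g} hf hg x => add_nonneg (hf x) (hg x)
  zero_mem' := fun x => le_refl 0
  smul_mem' := fun c f hf x => mul_nonneg c.2 (hf x)

/-- cofinality -/
theorem cofinal {Ω : Set (E N)} (hΩ : IsOpen Ω) (y : C_c(Ω, ℝ)) :
    ∃ φ : E N → ℝ, Cci Ω φ ∧ ∀ x : Ω, |y x| ≤ φ x := by
  obtain ⟨C, hC⟩ := y.hasCompactSupport.exists_bound_of_continuous y.continuous
  have hK : IsCompact (Subtype.val '' tsupport (y : Ω → ℝ)) :=
    y.hasCompactSupport.isCompact.image continuous_subtype_val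
  have hKΩ : Subtype.val '' tsupport (y : Ω → ℝ) ⊆ Ω := by
    rintro _ ⟨a, -, rfl⟩
    exact a.2
  obtain ⟨L, hL, hKL, hLΩ⟩ := exists_compact_between hK hΩ hKΩ
  obtain ⟨χ, h1, h2, h3⟩ := exists_contMDiffMap_one_nhds_of_subset_interior (𝓘(ℝ, E N)) (n := (⊤ : ℕ∞))
    hK.isClosed hKL
  have hχ : ContDiff ℝ ∞ (χ : E N → ℝ) := χ.contMDiff.contDiff
  have hχc : Cci Ω (χ : E N → ℝ) := by
    refine ⟨hχ, HasCompactSupport.intro hL h2, ?_⟩
    refine (closure_minimal ?_ hL.isClosed).trans hLΩ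
    intro x hx
    by_contra h
    exact hx (h2 x h)
  refine ⟨max C 0 • (χ : E N → ℝ), cci_smul _ hχc, fun x => ?_⟩
  rw [Pi.smul_apply, smul_eq_mul]
  by_cases hx : x ∈ tsupport (y : Ω → ℝ)
  · have : χ (x : E N) = 1 := h1.self_of_nhdsSet _ ⟨x, hx, rfl⟩
    rw [this, mul_one]
    exact (hC x).trans (le_max_left _ _)
  · rw [image_eq_zero_of_notMem_tsupport hx, abs_zero]
    exact mul_nonneg (le_max_right _ _) (h3 _).1

/-- restriction of a test function -/
def res {Ω : Set (E N)} (φ : E N → ℝ) (h : Cci Ω φ) : C_c(Ω, ℝ) where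
  toFun := fun x => φ x
  continuous_toFun := h.1.continuous.comp continuous_subtype_val
  hasCompactSupport' := by
    have hK : IsCompact ((Subtype.val : Ω → E N) ⁻¹' tsupport φ) := by
      rw [Subtype.isCompact_iff, Subtype.image_preimage_coe,
        inter_eq_self_of_subset_right h.2.2]
      exact h.2.1
    refine HasCompactSupport.intro hK fun x hx => ?_
    exact image_eq_zero_of_notMem_tsupport (f := φ) hx

theorem res_ex {Ω : Set (E N)} (φ : E N → ℝ) (h : Cci Ω φ) :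
    ex ((res φ h : C_c(Ω, ℝ)) : Ω → ℝ) = φ := ex_res φ h.2.2

theorem t : StRsz := by
  intro N Ω m w hΩ hm hw hpos
  haveI : LocallyCompactSpace Ω := hΩ.locallyCompactSpace
  obtain ⟨g, hg1, hg2⟩ := riesz_extension (cone Ω) (Lp Ω m w hw) (by
    intro f hf
    refine hpos _ f.2 fun x => ?_
    by_cases hx : x ∈ Ω
    · have := ex_mem ((f : C_c(Ω, ℝ)) : Ω → ℝ) ⟨x, hx⟩
      simp only at this
      rw [this]
      exact hf ⟨x, hx⟩
    · rw [ex_not _ x hx]) (by
    intro y
    obtain ⟨φ, h1, h2⟩ := cofinal hΩ y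
    refine ⟨⟨res φ h1, ?_⟩, fun x => ?_⟩
    · change Cci Ω (ex _)
      rw [res_ex]
      exact h1
    · have := neg_abs_le (y x)
      have h3 := h2 x
      change 0 ≤ φ x + y x
      linarith)
  let Λ : C_c(Ω, ℝ) →ₚ[ℝ] ℝ := PositiveLinearMap.mk₀ g (fun f hf => hg2 f fun x => hf x)
  let ν₀ : Measure Ω := RealRMK.rieszMeasure Λ
  have hemb : MeasurableEmbedding (Subtype.val : Ω → E N) :=
    MeasurableEmbedding.subtype_coe hΩ.measurableSet
  refine ⟨ν₀.map Subtype.val, ?_, ?_, ?_⟩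
  · rw [hemb.map_apply]
    have : (Subtype.val : Ω → E N) ⁻¹' Ωᶜ = ∅ := by
      ext x
      simp
    rw [this, measure_empty]
  · intro K hK hKΩ
    rw [hemb.map_apply]
    have hK' : IsCompact ((Subtype.val : Ω → E N) ⁻¹' K) := by
      rw [Subtype.isCompact_iff, Subtype.image_preimage_coe, inter_eq_self_of_subset_right hKΩ]
      exact hK
    exact hK'.measure_lt_top
  · intro φ h
    have e1 : ∫ x in Ω, φ x ∂(ν₀.map Subtype.val) = ∫ x : Ω, φ x ∂ν₀ := by
      rw [hemb.setIntegral_map]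
      have : (Subtype.val : Ω → E N) ⁻¹' Ω = univ := by
        ext x
        simp
      rw [this, setIntegral_univ]
    have e2 : ∫ x : Ω, φ x ∂ν₀ = g (res φ h) := RealRMK.integral_rieszMeasure Λ (res φ h)
    have hmem : res φ h ∈ Dm Ω := by
      change Cci Ω (ex _)
      rw [res_ex]
      exact h
    have e3 := hg1 ⟨res φ h, hmem⟩
    rw [e1, e2]
    refine Eq.trans ?_ e3.symm
    change _ = La Ω m w (ex _)
    rw [res_ex]
    rfl

end Pool.Agent.K7.H10.PDRSZ
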