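import Pool.Agent.K7.H25.SB.Stm

/-!
# Project SB (MP_8790b5_co), job NEAR1: Steiner trees exist for finite sets
-/

set_option autoImplicit false

open scoped MeasureTheory ENNReal NNReal Topology InnerProductSpace Pointwise
open MeasureTheory Set Filter Metric

namespace Pool.Agent.K7.H10.SB

open Pool.Agent.R154.Steiner Pool.Agent.K7.H25.SB

lemma H_smul {r : ℝ} (hr : 0 < r) (s : Set Pl) :
    μH[1] (r • s) = ENNReal.ofReal r * μH[1] s := by
  have h := Measure.hausdorffMeasure_smul₀ (𝕜 := ℝ) (E := Pl) (d := 1) zero_le_one hr.ne' s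
  rw [h]
  have e : ‖r‖₊ ^ (1 : ℝ) = Real.toNNReal r := by
    rw [NNReal.rpow_one]
    ext
    rw [coe_nnnorm, Real.norm_of_nonneg hr.le, Real.coe_toNNReal _ hr.le]
  rw [e, ENNReal.smul_def, smul_eq_mul]
  rfl

lemma steiner_smul {A S : Set Pl} (h : IsSteinerTree A S) {r : ℝ} (hr : 0 < r) :
    IsSteinerTree (r • A) (r • S) := by
  obtain ⟨h1, h2, h3, h4, h5⟩ := h
  refine ⟨h1.smul_of_ne_zero hr.ne', ?_, smul_set_mono h3, ?_, ?_⟩
  · rw [← image_smul]
    exact h2.image _ (continuous_const_smul r).continuousOn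
  · rw [H_smul hr]
    exact ENNReal.mul_lt_top ENNReal.ofReal_lt_top h4
  · intro T hT1 hT2 hT3
    have hr' : 0 < r⁻¹ := inv_pos.2 hr
    have h6 : μH[1] S ≤ μH[1] (r⁻¹ • T) := by
      refine h5 _ (hT1.smul_of_ne_zero hr'.ne') ?_ ?_
      · rw [← image_smul]
        exact hT2.image _ (continuous_const_smul r⁻¹).continuousOn
      · have h7 := smul_set_mono (a := r⁻¹) hT3
        rwa [smul_smul, inv_mul_cancel₀ hr.ne', one_smul] at h7
    rw [H_smul hr]
    rw [H_smul hr'] at h6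
    calc ENNReal.ofReal r * μH[1] S ≤ ENNReal.ofReal r * (ENNReal.ofReal r⁻¹ * μH[1] T) := by
          gcongr
      _ = μH[1] T := by
          rw [← mul_assoc, ← ENNReal.ofReal_mul hr.le, mul_inv_cancel₀ hr.ne', ENNReal.ofReal_one,
            one_mul]

/-- Steiner trees exist for finite sets. -/
theorem stExist : StExist := by
  intro A hA _
  obtain ⟨R, hR⟩ := hA.isBounded.exists_norm_le
  have hR1 : 0 < max R 1 := lt_max_of_lt_right one_pos
  have hA' : ((max R 1)⁻¹ • A).Finite := hA.smul_set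
  obtain ⟨n, t, -, ht⟩ := hA'.fin_param
  obtain ⟨S, hS, -, -⟩ := exists_steiner t (fun i => by
    have h1 : t i ∈ (max R 1)⁻¹ • A := ht ▸ mem_range_self i
    obtain ⟨a, ha, hai⟩ := h1
    have h2 : t i = (max R 1)⁻¹ • a := hai.symm
    rw [h2, norm_smul, norm_inv, Real.norm_of_nonneg hR1.le, inv_mul_le_iff₀ hR1, mul_one]
    exact (hR a ha).trans (le_max_left _ _))
  rw [ht] at hS
  have h := steiner_smul hS hR1
  rw [smul_smul, mul_inv_cancel₀ hR1.ne', one_smul] at h
  exact ⟨_, h⟩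

end Pool.Agent.K7.H10.SB
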